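import Pool.Agent.X259.U.U45

set_option autoImplicit false

/-!
# The Tate conjecture follows if more than half of the Tate classes in one degree are algebraic

Let `k` be an algebraic closure, in the field of complex numbers, of a field `k₁` finitely generated
over `ℚ`, and `ℓ` a prime number. The first three parts of the theorem are about all smooth projective
varieties (whose Lefschetz standard conjecture is true), the last two about abelian varieties (of
any type), where we prove more.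

**Varieties.** Let `X` be a smooth projective variety over `k` with a model over `k₁`. Let
`V = ⨁ H^{2i}(X(ℂ), ℚ(i))` with its Hodge structure `H` (of weight `0`), and the polarization `Q`
given by an ample class and the Hodge index theorem. The Galois group `Γ` of `k₁` acts on
`ℚ_ℓ ⊗ V = ⨁ H^{2i}(X, ℚ_ℓ(i))` by `ρ`, and `ω` is the extension of `Q`, which is invariant. The
classes in `V ^ {⊗ 2 m}`, a direct summand of the cohomology of `X ^ {2 m}`, are the multilinear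
forms in `2 m` variables (indexed by `Fin m × Fin 2`) in `V` or `ℚ_ℓ ⊗ V` (the dual of `V` is `V`, by
`Q`). `C m` is the space of the classes of algebraic cycles in `V ^ {⊗ 2 m}`. The spaces `C m` are a
*closed family* (`IsClosedFamily`) if the Lefschetz standard conjecture is true for `X`, for example if
`X` is a surface, an abelian variety, a complete intersection or a product of such varieties: they
contain the unit and `Q`, and they are stable under permutations, exterior products and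
contractions with `Q`. (For an arbitrary variety one can take the motivated classes of André.) `D` is
the space of the classes of algebraic cycles in `V` and `e` is the fundamental class.
`TateSpace m` is the space of the Tate classes in `V ^ {⊗ 2 m}`, so `dim C m ≤ dim TateSpace m`, and
equality means that these Tate classes are algebraic.

**Theorem, varieties.** Let `b = dim V` and `c ≥ 1`, `m` be integers with
`dim TateSpace m ≤ (2 - 1 / c) dim C m` (`Most`; the part of the Tate classes in `V ^ {⊗ 2 m}` which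
are algebraic is at least `2/3` for `c = 2`, and 51 percent is enough for `c = 26`).

1. **The Tate conjecture for `X`** is true if `m ≥ 256 c b ^ 3 (⌊log₂ (4 b c)⌋ + 1)`.
2. All Tate classes in `V ^ {⊗ 2 m'}`, `m' ≤ r`, are algebraic if
   `m ≥ 256 c b ^ 3 r ^ 2 (⌊log₂ (4 b c r)⌋ + 1)`, `r ≥ 1`.
3. The representation `ρ` is **semisimple** if `m ≥ 256 c b ^ 5 (⌊log₂ (4 b ^ 2 c)⌋ + 1)` and the squares
   of the determinants of the subrepresentations are of finite order (`Determinants`; this is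
   a theorem if `k₁` is a number field with a real place: the determinant is a character of
   weight `0` which is Hodge-Tate, so it is given by an algebraic Hecke character of weight `0`).

**Abelian varieties.** Let `A` be an abelian variety of dimension `g ≥ 1` over `k` with a model over
`k₁`. `W = H_1(A(ℂ), ℚ)` is the rational homology, `T` the tangent space, `per` the inclusion of
`W` in `T`, and `ω₀` the Riemann form of a polarization; `ℚ_ℓ ⊗ W` is the rational Tate module, with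
the continuous action `ρ'` of the (compact) Galois group `Γ'` of `k₁` and with the Weil pairing `ω'`,
the extension of `ω₀`; `χ` is the cyclotomic character. The classes in `H^1(A) ^ {⊗ 2 m} (m)` are the
multilinear forms in `2 m` variables in `W` or `ℚ_ℓ ⊗ W`. The space `H^{2m}(A ^ n)(m)` is a direct
summand of a sum of copies of `H^1(A) ^ {⊗ 2 m} (m)`, by algebraic projectors, and
`H^1(A) ^ {⊗ 2 m} (m)` is a direct summand of `H^{2m}(A ^ (2 m)) (m)`; so the Tate
conjecture for all powers of `A`, in all degrees, says that all Tate classes in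
`H^1(A) ^ {⊗ 2 m} (m)`, for all `m`, are algebraic, and the Tate conjecture for `A` follows from this
for `m ≤ g`. The spaces `C' m` of the algebraic classes are a closed family (Lieberman, Kleiman).

**Theorem, abelian varieties.**

4. Let `r, c ≥ 1` and `m ≥ 256 c g ^ 3 r ^ 2 (⌊log₂ (4 g c r)⌋ + 1)` be integers with
   `dim TateSpace m ≤ (2 - 1 / c) dim C' m`. Then all Tate classes in `H^1(A) ^ {⊗ 2 m'} (m')`,
   `m' ≤ r`, are algebraic. For example (`r = g`), the Tate conjecture for `A` follows if two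
   thirds of the Tate classes in `H^1(A) ^ {⊗ 2 m} (m)` are algebraic for one
   `m ≥ 512 g ^ 5 (⌊2 log₂ g⌋ + 4)`.
5. Let `c ≥ 1` and `m ≥ 1024 c g ^ 3 (⌊log₂ (8 g c)⌋ + 1)`, and
   `m ≥ (2 g) ^ (8 g + 13)` if `A` has factors of type IV. The following are equivalent: the Tate
   conjecture is true for all powers of `A` in all codimensions; the Tate classes in
   `H^1(A) ^ {⊗ 2 m} (m)` are algebraic; `dim TateSpace m ≤ (2 - 1 / c) dim C' m`.

So either the Tate conjecture is true for `X`, or less than 51 percent of the Tate classes in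
`V ^ {⊗ 2 m}` are algebraic for all `m` above a bound which is polynomial in `b`, and a similar
dichotomy is true for the semisimplicity, and for all powers of abelian varieties.

The hypotheses in `IsAbelian` (`Semisimple`, `Faltings`: semisimplicity and endomorphisms;
`Deligne`: Hodge classes are Tate classes; `Centres`: the Mumford-Tate conjecture holds for the
centres; Vasiu, Ullmo-Yafaev) are theorems for all abelian varieties; 4 uses only that the classes
in `C' m` are Hodge classes and Tate classes.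

The proof of 1, 2 and 4. We embed `ℚ_ℓ` in the field of complex numbers. The complex combinations of
the classes in `C m` are the invariants of a compact group `G` of unitary matrices (positivity of
the polarization, first fundamental theorem, Haar integration; the form is made alternating by
passing from `V` to `V ⊕ V`). The complex Tate tensors are a family which is stable under
permutations, products and contractions, but there is no positivity. Suppose that there is a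
Tate tensor `F ≠ 0` of degree `2 m' ≤ 2 r` which is orthogonal to the invariants of `G`. The
operator `M = ∫ ⟨F, g F⟩ g dg` on the tensors of degree `2 m` is the average over `G` of `x ⊗ F^*`,
contracted with `F`; so its values are Tate tensors, and it vanishes after averaging over `G`, so
`tr M ≤ ⟨F, F⟩ (dim TateSpace m - dim C m)`. On the other hand, the trace is
`∫ ⟨F, g F⟩ (tr g) ^ {2 m} dg`; if the eigenvalues of `g` or `- g` have arguments at most `θ` then
`Re ⟨F, g F⟩ ≥ cos (2 r θ) ⟨F, F⟩`, and otherwise `|tr g| ≤ dim - 2 (1 - cos θ)`, and the dimension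
of the invariants of `G` is at least `dim ^ {2 m} / (m + 1) ^ {dim ^ 2}`, a contradiction for
`(2 r θ) ^ 2 = 1 / c`. For 1 we apply 2 to the classes `x ⊗ e`.

The proof of 3. Let `N` be a stable subspace and `f_1, …, f_d` a basis of the covectors which
vanish on `N`. Then `det (f_i (v_j)) det (f_i (v'_j))` is a Tate class in `V ^ {⊗ 2 d}`, so it is an
invariant of `G` by 2. So `G` preserves the span of the `f_i`, and the orthogonal projector on this
span is an invariant of `G` in `V ^ {⊗ 2}`, so it is a complex combination of classes in `C 1`.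
A retraction of `ℂ` on `ℚ_ℓ` gives a projector with kernel `N` which is a combination of classes in
`C 1`, so it commutes with an open subgroup of `Γ`.

The proof of 5. By 4, the Casimir class of the Lie algebra of the image of Galois is a combination of
algebraic classes, so all Tate classes on all powers are combinations of Hodge classes
(`X259.Q.casimir_decides`). Since the Hodge classes are Tate classes, more than half of the Hodge
classes in degree `2 m` are algebraic, and then all Hodge classes on all powers are algebraic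
(`X259.U.hodge_half`).
-/

noncomputable section

namespace Pool.Agent.Results.MP_640417_ag.HalfOfTheTateClasses

open Module TensorProduct Pool.Agent.X259 Pool.Agent.H204R3.GP Pool.Agent.W516.MTD

section representations

variable {K M G : Type} [Field K] [AddCommGroup M] [Module K M] [Group G]

/-- `x` is a Tate class in the representation `ρ`: it is fixed by a subgroup of finite index. -/
def IsTateVector (ρ : Representation K G M) (x : M) : Prop :=
  ∃ Δ : Subgroup G, Δ.FiniteIndex ∧ ∀ s ∈ Δ, ρ s x = x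

/-- `U` is a subrepresentation. -/
def Stable (ρ : Representation K G M) (U : Submodule K M) : Prop := ∀ s, ∀ x ∈ U, ρ s x ∈ U

/-- The determinant of `s` on the subrepresentation `U`. -/
def subDet (ρ : Representation K G M) (U : Submodule K M) (hU : Stable ρ U) (s : G) : K :=
  LinearMap.det ((ρ s).restrict (hU s))

/-- The squares of the determinants of the subrepresentations are of finite order. -/
def Determinants (ρ : Representation K G M) : Prop :=
  ∀ (U : Submodule K M) (hU : Stable ρ U),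
    ∃ Δ : Subgroup G, Δ.FiniteIndex ∧ ∀ s ∈ Δ, subDet ρ U hU s ^ 2 = 1

/-- The representation is semisimple: subrepresentations have stable complements. -/
def IsSemisimple (ρ : Representation K G M) : Prop :=
  ∀ U : Submodule K M, Stable ρ U → ∃ U' : Submodule K M, Stable ρ U' ∧ IsCompl U U'

end representations

section forms

variable {ℓ : ℕ} [Fact ℓ.Prime] {V : Type} [AddCommGroup V] [Module ℚ V] {Γ : Type} [Group Γ]

/-- The rational classes in `V ^ {⊗ 2 m}`. -/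
abbrev RatForm (V : Type) [AddCommGroup V] [Module ℚ V] (m : ℕ) : Type :=
  MultilinearMap ℚ (fun _ : Fin m × Fin 2 => V) ℚ

/-- The classes in `(ℚ_ℓ ⊗ V) ^ {⊗ 2 m}`. -/
abbrev Form (ℓ : ℕ) [Fact ℓ.Prime] (V : Type) [AddCommGroup V] [Module ℚ V] (m : ℕ) : Type :=
  MultilinearMap ℚ_[ℓ] (fun _ : Fin m × Fin 2 => ℚ_[ℓ] ⊗[ℚ] V) ℚ_[ℓ]

/-- `φ` is the extension of the rational class `ψ`. -/
def Extends {m : ℕ} (ψ : RatForm V m) (φ : Form ℓ V m) : Prop :=
  ∀ v : Fin m × Fin 2 → V, φ (fun l => (1 : ℚ_[ℓ]) ⊗ₜ[ℚ] v l) = ((ψ v : ℚ) : ℚ_[ℓ])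

/-- The space of the linear combinations, with coefficients in `ℚ_ℓ`, of the classes in `C`. -/
def Span (ℓ : ℕ) [Fact ℓ.Prime] {m : ℕ} (C : Submodule ℚ (RatForm V m)) :
    Submodule ℚ_[ℓ] (Form ℓ V m) :=
  Submodule.span ℚ_[ℓ] {φ : Form ℓ V m | ∃ ψ ∈ C, Extends ψ φ}

/-- The vectors `v` (for the first `m` pairs of variables), and `x, y` for the last pair. -/
def addPair {m : ℕ} (v : Fin m × Fin 2 → V) (x y : V) : Fin (m + 1) × Fin 2 → V :=
  fun p => Fin.lastCases (motive := fun _ => V) (![x, y] p.2) (fun j => v (j, p.2)) p.1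

/-- The spaces `C m` are stable under products. -/
def StableProducts (C : ∀ m : ℕ, Submodule ℚ (RatForm V m)) : Prop :=
  ∀ (m m' : ℕ), ∀ ψ ∈ C m, ∀ ψ' ∈ C m', ∀ ψ'' : RatForm V (m + m'),
    (∀ v, ψ'' v = ψ (fun p => v (Fin.castAdd m' p.1, p.2)) *
      ψ' (fun p => v (Fin.natAdd m p.1, p.2))) → ψ'' ∈ C (m + m')

/-- The spaces `C m` are stable under the contraction of the last two variables with the inverse of
the form `Q`, which is given by dual families `β`, `β'`. -/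
def StableContraction (Q : LinearMap.BilinForm ℚ V) (C : ∀ m : ℕ, Submodule ℚ (RatForm V m)) :
    Prop :=
  ∀ β β' : Fin (finrank ℚ V) → V, (∀ w : V, w = ∑ i, Q w (β' i) • β i) →
    ∀ (m : ℕ), ∀ ψ ∈ C (m + 1), ∀ ψ' : RatForm V m,
      (∀ v, ψ' v = ∑ i, ψ (addPair v (β i) (β' i))) → ψ' ∈ C m

/-- The spaces `C m` of classes in `V ^ {⊗ 2 m}` form a closed family. -/
structure IsClosedFamily (Q : LinearMap.BilinForm ℚ V) (C : ∀ m : ℕ, Submodule ℚ (RatForm V m)) :
    Prop where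
  one : ∀ ψ : RatForm V 0, (∀ v, ψ v = 1) → ψ ∈ C 0
  polarization : ∀ ψ : RatForm V 1, (∀ v, ψ v = Q (v (0, 0)) (v (0, 1))) → ψ ∈ C 1
  perm : ∀ (m : ℕ) (σ : Equiv.Perm (Fin m × Fin 2)), ∀ ψ ∈ C m, ψ.domDomCongr σ ∈ C m
  prod : StableProducts C
  contraction : StableContraction Q C

/-- The space of the Tate classes in `2 m` variables: the forms `φ` with `φ (s v) = χ (s) ^ m φ (v)` for
`s` in a subgroup of finite index of `Γ` (`χ = 1` for `V = ⨁ H^{2i}(X)(i)`). -/
def TateSpace (ρ : Representation ℚ_[ℓ] Γ (ℚ_[ℓ] ⊗[ℚ] V)) (χ : Γ →* ℚ_[ℓ]) (m : ℕ) :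
    Submodule ℚ_[ℓ] (Form ℓ V m) where
  carrier := {φ | IsTateTensor ρ χ m φ}
  zero_mem' := ⟨⊤, inferInstance, fun s _ v => by simp⟩
  add_mem' := by
    rintro a b ⟨Δ, hΔ, h⟩ ⟨Δ', hΔ', h'⟩
    refine ⟨Δ ⊓ Δ', inferInstance, fun s hs v => ?_⟩
    rw [add_apply, add_apply, h s hs.1, h' s hs.2, mul_add]
  smul_mem' := by
    rintro c a ⟨Δ, hΔ, h⟩
    refine ⟨Δ, hΔ, fun s hs v => ?_⟩
    rw [smul_apply, smul_apply, h s hs, smul_eq_mul, smul_eq_mul, mul_left_comm]

/-- The dimension of a space of classes with coefficients in `ℚ_ℓ`. -/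
def dimT {m : ℕ} (L : Submodule ℚ_[ℓ] (Form ℓ V m)) : ℕ := finrank ℚ_[ℓ] L

/-- The dimension of a space of rational classes. -/
def dimC {m : ℕ} (L : Submodule ℚ (RatForm V m)) : ℕ := finrank ℚ L

/-- All Tate classes in `2 m` variables are combinations of classes in `C m`. -/
def TateIn (ρ : Representation ℚ_[ℓ] Γ (ℚ_[ℓ] ⊗[ℚ] V)) (χ : Γ →* ℚ_[ℓ])
    (C : ∀ m : ℕ, Submodule ℚ (RatForm V m)) (m : ℕ) : Prop :=
  TateSpace ρ χ m ≤ Span ℓ (C m)

/-- The numerical hypothesis: `dim TateSpace m ≤ (2 - 1 / c) dim C m`. -/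
def Most (ρ : Representation ℚ_[ℓ] Γ (ℚ_[ℓ] ⊗[ℚ] V)) (χ : Γ →* ℚ_[ℓ])
    (C : ∀ m : ℕ, Submodule ℚ (RatForm V m)) (c m : ℕ) : Prop :=
  1 ≤ c ∧ c * dimT (TateSpace ρ χ m) ≤ (2 * c - 1) * dimC (C m)

/-- The extensions of the rational classes in `C` are Tate classes. -/
def AreTate (ρ : Representation ℚ_[ℓ] Γ (ℚ_[ℓ] ⊗[ℚ] V)) (χ : Γ →* ℚ_[ℓ])
    (C : ∀ m : ℕ, Submodule ℚ (RatForm V m)) : Prop :=
  ∀ m, ∀ ψ ∈ C m, ∀ φ : Form ℓ V m, Extends ψ φ → φ ∈ TateSpace ρ χ m

/-- The algebraic part of the cohomology of a variety: the Hodge structure `H` of weight `0` on `V`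
with the polarization `Q`, the action `ρ` of the Galois group on `ℚ_ℓ ⊗ V`, which preserves the
extension `ω` of `Q`, and the closed family `C` of the classes of cycles. -/
structure IsVariety [FiniteDimensional ℚ V] (H : ℤ → ℤ → Submodule ℂ (ℂ ⊗[ℚ] V))
    (Q : LinearMap.BilinForm ℚ V) (ρ : Representation ℚ_[ℓ] Γ (ℚ_[ℓ] ⊗[ℚ] V))
    (ω : LinearMap.BilinForm ℚ_[ℓ] (ℚ_[ℓ] ⊗[ℚ] V)) (C : ∀ m : ℕ, Submodule ℚ (RatForm V m)) :
    Prop where
  pos : 1 ≤ finrank ℚ V
  hodge : HS.IsHodgeStructure H LinearMap.id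
  polarization : HS.IsPolarization H LinearMap.id Q
  form : ∀ u v : V, ω ((1 : ℚ_[ℓ]) ⊗ₜ[ℚ] u) ((1 : ℚ_[ℓ]) ⊗ₜ[ℚ] v) = ((Q u v : ℚ) : ℚ_[ℓ])
  invariant : ∀ s u v, ω (ρ s u) (ρ s v) = ω u v
  closed : IsClosedFamily Q C
  isHodge : ∀ m, ∀ ψ ∈ C m, HS.IsHodgeForm H ψ
  isTate : AreTate ρ 1 C

/-- `D` is the space of the classes of cycles in `V`, and `e` is the fundamental class: `e` is fixed by
`Γ`, and the class `y` with `Q (y, u) = ψ (u, e)` is in `D` if `ψ` is in `C 1`. -/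
structure AreCycles (Q : LinearMap.BilinForm ℚ V) (ρ : Representation ℚ_[ℓ] Γ (ℚ_[ℓ] ⊗[ℚ] V))
    (C : ∀ m : ℕ, Submodule ℚ (RatForm V m)) (e : V) (D : Submodule ℚ V) : Prop where
  fixed : ∀ s, ρ s ((1 : ℚ_[ℓ]) ⊗ₜ[ℚ] e) = (1 : ℚ_[ℓ]) ⊗ₜ[ℚ] e
  ne_zero : Q e e ≠ 0
  mem : ∀ ψ ∈ C 1, ∀ y : V, (∀ u : V, Q y u = ψ fun p => ![u, e] p.2) → y ∈ D

/-- The Tate conjecture: the Tate classes in `ℚ_ℓ ⊗ V` are combinations of classes in `D`. -/
def TateConjecture (ρ : Representation ℚ_[ℓ] Γ (ℚ_[ℓ] ⊗[ℚ] V)) (D : Submodule ℚ V) : Prop :=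
  ∀ x, IsTateVector ρ x →
    x ∈ Submodule.span ℚ_[ℓ] ((fun y : V => (1 : ℚ_[ℓ]) ⊗ₜ[ℚ] y) '' (D : Set V))

end forms

section abelian

variable {ℓ : ℕ} [Fact ℓ.Prime] {W T : Type} [AddCommGroup W] [Module ℚ W] [AddCommGroup T]
  [Module ℂ T] {Γ : Type} [Group Γ]

/-- There are no factors of type IV: the only element `P` of the centre of `End(A) ⊗ ℚ` with
`P' = - P` for the Rosati involution is zero. -/
def NoTypeFour (per : W →+ T) (ω₀ : LinearMap.BilinForm ℚ W) : Prop :=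
  ∀ P : Module.End ℚ W, IsHodgeEnd per P →
    (∀ P' : Module.End ℚ W, IsHodgeEnd per P' → P * P' = P' * P) →
    (∀ u v, ω₀ (P u) v = -ω₀ u (P v)) → P = 0

/-- An abelian variety: the complex torus of dimension `g` with a polarization, the Galois group, its
action on the Tate module and the Weil pairing, the theorems of Faltings and Deligne and the
theorem on centres, and the closed family `C` of the classes of cycles. -/
structure IsAbelian [FiniteDimensional ℚ W] [TopologicalSpace Γ] (g : ℕ) (per : W →+ T)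
    (ω₀ : LinearMap.BilinForm ℚ W) (ρ : Representation ℚ_[ℓ] Γ (ℚ_[ℓ] ⊗[ℚ] W)) (χ : Γ →* ℚ_[ℓ])
    (ω : LinearMap.BilinForm ℚ_[ℓ] (ℚ_[ℓ] ⊗[ℚ] W)) (C : ∀ m : ℕ, Submodule ℚ (RatForm W m)) :
    Prop where
  pos : 1 ≤ g
  dim : finrank ℂ T = g
  rational : IsRationalStructure per
  riemann : IsRiemannForm per ω₀
  continuous : ∀ (v : ℚ_[ℓ] ⊗[ℚ] W) (f : ℚ_[ℓ] ⊗[ℚ] W →ₗ[ℚ_[ℓ]] ℚ_[ℓ]),
    Continuous fun s => f (ρ s v)
  cyclotomic : Continuous χ
  weil : ∀ u v : W, ω ((1 : ℚ_[ℓ]) ⊗ₜ[ℚ] u) ((1 : ℚ_[ℓ]) ⊗ₜ[ℚ] v) = ((ω₀ u v : ℚ) : ℚ_[ℓ])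
  equivariant : ∀ s u v, ω (ρ s u) (ρ s v) = χ s * ω u v
  semisimple : Semisimple ρ
  faltings : Faltings per ρ
  deligne : Deligne per ρ χ
  centres : Centres per ρ χ
  closed : IsClosedFamily ω₀ C
  isHodge : ∀ m, ∀ ψ ∈ C m, IsHodgeTensor per ψ

end abelian

section theorems

variable {ℓ : ℕ} [Fact ℓ.Prime]

/-- **More than half of the Tate classes decide**, for varieties. -/
theorem varieties {V Γ : Type} [AddCommGroup V] [Module ℚ V] [Group Γ] [FiniteDimensional ℚ V]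
    {H : ℤ → ℤ → Submodule ℂ (ℂ ⊗[ℚ] V)}
    {Q : LinearMap.BilinForm ℚ V} {ρ : Representation ℚ_[ℓ] Γ (ℚ_[ℓ] ⊗[ℚ] V)}
    {ω : LinearMap.BilinForm ℚ_[ℓ] (ℚ_[ℓ] ⊗[ℚ] V)} {C : ∀ m : ℕ, Submodule ℚ (RatForm V m)}
    (hX : IsVariety H Q ρ ω C) (b : ℕ) (hb : finrank ℚ V = b) :
    (∀ (e : V) (D : Submodule ℚ V), AreCycles Q ρ C e D → ∀ c m : ℕ, Most ρ 1 C c m →
      256 * c * b ^ 3 * (Nat.log 2 (4 * b * c) + 1) ≤ m → TateConjecture ρ D) ∧
    (∀ r c m : ℕ, 1 ≤ r → Most ρ 1 C c m →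
      256 * c * b ^ 3 * r ^ 2 * (Nat.log 2 (4 * b * c * r) + 1) ≤ m →
      ∀ m' ≤ r, TateIn ρ 1 C m') ∧
    (∀ c m : ℕ, Most ρ 1 C c m → 256 * c * b ^ 5 * (Nat.log 2 (4 * b ^ 2 * c) + 1) ≤ m →
      Determinants ρ → IsSemisimple ρ) := by
  classical
  subst hb
  obtain ⟨hn, hH, hQ, hωω, hinv, hcl, hCH, hT⟩ := hX
  obtain ⟨γ, γ', hγ⟩ := U.exists_dual_pol hH hQ
  have hC : T.Closed Q γ γ' C :=
    { one := hcl.one
      pol := hcl.polarization
      perm := hcl.perm
      prod := hcl.prod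
      contr := hcl.contraction γ γ' hγ }
  have hbij := U.om_bij (ω := ω) hγ hωω
  have hωρ : ∀ s u v, ω (ρ s u) (ρ s v) = (1 : Γ →* ℚ_[ℓ]) s * ω u v := fun s u v => by
    rw [MonoidHom.one_apply, one_mul, hinv]
  have low : ∀ r c m : ℕ, 1 ≤ r → Most ρ 1 C c m →
      256 * c * finrank ℚ V ^ 3 * r ^ 2 * (Nat.log 2 (4 * finrank ℚ V * c * r) + 1) ≤ m →
      ∀ m' ≤ r, ∀ φ ∈ TateSpace ρ 1 m', ∀ lam : ℚ_[ℓ] →ₗ[ℚ] ℚ,
        Pool.Agent.W516.DR.fcmp lam φ ∈ C m' := by
    intro r c m hr hM hm m' hm' φ hφ lam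
    exact U.tate_low_hs hH hQ hn hωω hωρ hγ hC hCH hT hr hM.1 hm (TT := TateSpace ρ 1 m)
      (fun φ hφ => hφ) hM.2 hm' φ hφ lam
  refine ⟨?_, ?_, ?_⟩
  · rintro L D ⟨hL, hLL, hD⟩ c m hM hm x ⟨Δ, hΔ, hx⟩
    let B : ℚ_[ℓ] ⊗[ℚ] V →ₗ[ℚ_[ℓ]] ℚ_[ℓ] ⊗[ℚ] V →ₗ[ℚ_[ℓ]] ℚ_[ℓ] :=
      (ω x).smulRight (ω ((1 : ℚ_[ℓ]) ⊗ₜ[ℚ] L))
    have hB : ∀ u v, B u v = ω x u * ω ((1 : ℚ_[ℓ]) ⊗ₜ[ℚ] L) v := fun u v => rfl
    have h1 : ∀ lam : ℚ_[ℓ] →ₗ[ℚ] ℚ, Pool.Agent.W516.DR.fcmp lam (U.b2K B) ∈ C 1 := by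
      refine low 1 c m (le_refl 1) hM (by rw [mul_one, one_pow, mul_one]; exact hm) 1 (le_refl 1)
        _ ⟨Δ, hΔ, fun s hs v => ?_⟩
      rw [MonoidHom.one_apply, one_pow, one_mul, U.b2K_apply, U.b2K_apply, hB, hB]
      congr 1
      · conv_lhs => rw [← hx s hs]
        rw [hinv]
      · conv_lhs => rw [← hL s]
        rw [hinv]
    -- the components of `x`
    have hQs : Function.Surjective Q :=
      (LinearMap.injective_iff_surjective_of_finrank_eq_finrank
        Subspace.dual_finrank_eq.symm).1 (by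
          rw [← LinearMap.ker_eq_bot, LinearMap.ker_eq_bot']
          intro z hz
          rw [hγ z]
          refine Finset.sum_eq_zero fun i _ => ?_
          rw [hz, LinearMap.zero_apply, zero_smul])
    have h2 : ∀ lam : ℚ_[ℓ] →ₗ[ℚ] ℚ, ∃ y ∈ D, ∀ u : V,
        Q y u = lam (ω x ((1 : ℚ_[ℓ]) ⊗ₜ[ℚ] u)) := by
      intro lam
      obtain ⟨y, hy⟩ := hQs (lam ∘ₗ ((ω x).restrictScalars ℚ) ∘ₗ TensorProduct.mk ℚ ℚ_[ℓ] V 1)
      have hy' : ∀ u : V, Q y u = lam (ω x ((1 : ℚ_[ℓ]) ⊗ₜ[ℚ] u)) := fun u =>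
        LinearMap.congr_fun hy u
      have h3 : Q L L • y ∈ D := by
        refine hD _ (h1 lam) _ fun u => ?_
        rw [Pool.Agent.W516.DR.fcmp_apply, U.b2K_apply, hB]
        change _ = lam (ω x ((1 : ℚ_[ℓ]) ⊗ₜ[ℚ] u) * ω ((1 : ℚ_[ℓ]) ⊗ₜ[ℚ] L)
          ((1 : ℚ_[ℓ]) ⊗ₜ[ℚ] L))
        rw [hωω, map_smul, LinearMap.smul_apply, hy', smul_eq_mul, mul_comm (ω x _)]
        have h4 : ((Q L L : ℚ) : ℚ_[ℓ]) * ω x ((1 : ℚ_[ℓ]) ⊗ₜ[ℚ] u) =
            (Q L L) • ω x ((1 : ℚ_[ℓ]) ⊗ₜ[ℚ] u) := by rw [Rat.smul_def]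
        rw [h4, map_smul, smul_eq_mul]
      refine ⟨y, ?_, hy'⟩
      have h4 := D.smul_mem (Q L L)⁻¹ h3
      rwa [smul_smul, inv_mul_cancel₀ hLL, one_smul] at h4
    let C' : Submodule ℚ (MultilinearMap ℚ (fun _ : Unit => V) ℚ) :=
      { carrier := {ψ | ∃ y ∈ D, ∀ v, ψ v = Q y (v ())}
        add_mem' := by
          rintro a c ⟨y, hy, h⟩ ⟨z, hz, h'⟩
          exact ⟨y + z, D.add_mem hy hz, fun v => by
            rw [add_apply, h, h', map_add, LinearMap.add_apply]⟩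
        zero_mem' := ⟨0, D.zero_mem, fun v => by rw [map_zero, LinearMap.zero_apply]; rfl⟩
        smul_mem' := by
          rintro c a ⟨y, hy, h⟩
          exact ⟨c • y, D.smul_mem c hy, fun v => by
            rw [smul_apply, h, map_smul, LinearMap.smul_apply]⟩ }
    have h3 := Pool.Agent.X259.Q.mem_of_fcmp (φ := MultilinearMap.ofSubsingleton ℚ_[ℓ] (ℚ_[ℓ] ⊗[ℚ] V) ℚ_[ℓ]
      () (ω x)) C' fun lam => by
        obtain ⟨y, hy, h⟩ := h2 lam
        refine ⟨y, hy, fun v => ?_⟩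
        rw [h, Pool.Agent.W516.DR.fcmp_apply]
        rfl
    have h4 : ∀ φ ∈ Submodule.span ℚ_[ℓ] {φ' : MultilinearMap ℚ_[ℓ]
        (fun _ : Unit => ℚ_[ℓ] ⊗[ℚ] V) ℚ_[ℓ] | ∃ ψ ∈ C', ∀ v : Unit → V,
          φ' (fun l => (1 : ℚ_[ℓ]) ⊗ₜ[ℚ] v l) = ((ψ v : ℚ) : ℚ_[ℓ])},
        ∃ z ∈ Submodule.span ℚ_[ℓ] ((fun y : V => (1 : ℚ_[ℓ]) ⊗ₜ[ℚ] y) '' (D : Set V)),
          ∀ u, φ (fun _ => u) = ω z u := by
      intro φ hφ
      induction hφ using Submodule.span_induction with
      | mem φ h =>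
        obtain ⟨ψ, ⟨y, hy, hψ⟩, h⟩ := h
        refine ⟨(1 : ℚ_[ℓ]) ⊗ₜ[ℚ] y, Submodule.subset_span ⟨y, hy, rfl⟩, fun u => ?_⟩
        induction u using TensorProduct.induction_on with
        | zero =>
          rw [map_zero]
          exact φ.map_zero
        | tmul a v =>
          have h5 : a ⊗ₜ[ℚ] v = a • ((1 : ℚ_[ℓ]) ⊗ₜ[ℚ] v) := by
            rw [TensorProduct.smul_tmul', smul_eq_mul, mul_one]
          have h6 : (fun _ : Unit => a • ((1 : ℚ_[ℓ]) ⊗ₜ[ℚ] v)) =
              fun i : Unit => (fun _ : Unit => a) i • (fun _ : Unit => (1 : ℚ_[ℓ]) ⊗ₜ[ℚ] v) i := rfl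
          rw [h5, h6, MultilinearMap.map_smul_univ, map_smul, hωω]
          have h7 := h fun _ => v
          rw [hψ] at h7
          rw [h7]
          simp
        | add u v hu hv =>
          rw [map_add, ← hu, ← hv]
          have h5 := φ.map_update_add (fun _ : Unit => u) () u v
          have h6 : ∀ w : ℚ_[ℓ] ⊗[ℚ] V, Function.update (fun _ : Unit => u) () w =
              fun _ => w := fun w => by
            funext i
            exact Function.update_self _ _ _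
          rw [h6, h6, h6] at h5
          exact h5
      | zero => exact ⟨0, Submodule.zero_mem _, fun u => by rw [map_zero]; rfl⟩
      | add a c _ _ ha hc =>
        obtain ⟨z, hz, h⟩ := ha
        obtain ⟨z', hz', h'⟩ := hc
        exact ⟨z + z', Submodule.add_mem _ hz hz', fun u => by
          rw [add_apply, h, h', map_add, LinearMap.add_apply]⟩
      | smul c a _ ha =>
        obtain ⟨z, hz, h⟩ := ha
        exact ⟨c • z, Submodule.smul_mem _ _ hz, fun u => by
          rw [smul_apply, h, map_smul, LinearMap.smul_apply]⟩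
    obtain ⟨z, hz, h5⟩ := h4 _ h3
    have h6 : x = z := hbij.1 (LinearMap.ext fun u => h5 u)
    rw [h6]
    exact hz
  · intro r c m hr hM hm m' hm' φ hφ
    exact Pool.Agent.X259.Q.mem_of_fcmp (C m') (low r c m hr hM hm m' hm' φ hφ)
  · intro c m hM hm hdet U hU
    exact Pool.Agent.X259.U.semisimple_hs hH hQ hn hωω hωρ hγ hC hCH hT (fun U hU => by
      obtain ⟨Δ, hΔ, h⟩ := hdet U hU
      exact ⟨Δ, hΔ, fun s hs => by rw [MonoidHom.one_apply, one_pow]; exact h s hs⟩) hM.1 hm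
      (TT := TateSpace ρ 1 m) (fun φ hφ => hφ) hM.2 U hU

/-- **More than half of the Tate classes decide**, for abelian varieties. -/
theorem abelian {W T Γ : Type} [AddCommGroup W] [Module ℚ W] [AddCommGroup T] [Module ℂ T]
    [Group Γ] [FiniteDimensional ℚ W] [TopologicalSpace Γ] [IsTopologicalGroup Γ]
    [CompactSpace Γ] {g : ℕ} {per : W →+ T} {ω₀ : LinearMap.BilinForm ℚ W}
    {ρ : Representation ℚ_[ℓ] Γ (ℚ_[ℓ] ⊗[ℚ] W)} {χ : Γ →* ℚ_[ℓ]}
    {ω : LinearMap.BilinForm ℚ_[ℓ] (ℚ_[ℓ] ⊗[ℚ] W)} {C : ∀ m : ℕ, Submodule ℚ (RatForm W m)}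
    (hA : IsAbelian g per ω₀ ρ χ ω C) :
    (∀ r c m : ℕ, 1 ≤ r → Most ρ χ C c m →
      256 * c * g ^ 3 * r ^ 2 * (Nat.log 2 (4 * g * c * r) + 1) ≤ m →
      ∀ m' ≤ r, TateIn ρ χ C m') ∧
    (∀ c m : ℕ, 1 ≤ c → 1024 * c * g ^ 3 * (Nat.log 2 (8 * g * c) + 1) ≤ m →
      ((2 * g) ^ (8 * g + 13) ≤ m ∨ NoTypeFour per ω₀) →
      List.TFAE [∀ m' : ℕ, TateIn ρ χ C m', TateIn ρ χ C m, Most ρ χ C c m]) := by
  classical
  obtain ⟨hg, hT, hper, hω₀, hρ, hχ, hωω, hωρ, hss, hF, hD, hC, hCC, hCH⟩ := hA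
  obtain ⟨β, β', hβ⟩ := Pool.Agent.X259.T.exists_dual hper hω₀
  have hd := Pool.Agent.X259.T.finrank_two hper hT
  have hC' : Pool.Agent.X259.T.Closed ω₀ β β' C :=
    { one := hCC.one
      pol := hCC.polarization
      perm := hCC.perm
      prod := hCC.prod
      contr := hCC.contraction β β' hβ }
  have hCT : ∀ m, ∀ ψ ∈ C m, ∀ φ : Form ℓ W m,
      (∀ v : Fin m × Fin 2 → W, φ (fun l => (1 : ℚ_[ℓ]) ⊗ₜ[ℚ] v l) = ((ψ v : ℚ) : ℚ_[ℓ])) →
      IsTateTensor ρ χ m φ := fun m ψ hψ φ hφ => hD m ψ (hCH m ψ hψ) φ hφ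
  refine ⟨?_, ?_⟩
  · intro r c m hr hM hm m' hm' φ hφ
    refine Pool.Agent.X259.Q.mem_of_fcmp (C m') fun lam => ?_
    refine Pool.Agent.X259.U.tate_low hper hω₀ hβ hωω hωρ hC' hCH hCT (by omega) hr (k := c)
      (m := m) hM.1 ?_ (TT := TateSpace ρ χ m) (fun φ hφ => hφ) hM.2 hm' φ hφ lam
    rw [hd]
    have h1 : 2 * (2 * g) * c * r = 4 * g * c * r := by ring
    rw [h1]
    convert hm using 1
    ring
  · intro c m hc hm hm'
    tfae_have 1 → 2 := fun h => h m
    tfae_have 2 → 3 := by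
      intro h
      refine ⟨hc, Nat.mul_le_mul (by omega) ?_⟩
      exact (Submodule.finrank_mono h).trans
        (Pool.Agent.X259.U.finrank_comb_le (ℓ := ℓ) (C m))
    tfae_have 3 → 1 := by
      intro h m' φ hφ
      refine Pool.Agent.X259.Q.mem_of_fcmp (C m') fun lam => ?_
      exact Pool.Agent.X259.U.tate_all hg hd hper hω₀ hρ hχ hωω hωρ hss hF hD hC hβ hC' hCH hc hm
        hm' (TT := TateSpace ρ χ m) (fun φ hφ => hφ) h.2 m' φ hφ lam
    tfae_finish

/-- **More than half of the Tate classes decide.** -/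
theorem result
    -- a variety `X`
    {V Γ : Type} [AddCommGroup V] [Module ℚ V] [Group Γ] [FiniteDimensional ℚ V]
    (H : ℤ → ℤ → Submodule ℂ (ℂ ⊗[ℚ] V))
    (Q : LinearMap.BilinForm ℚ V) (ρ : Representation ℚ_[ℓ] Γ (ℚ_[ℓ] ⊗[ℚ] V))
    (ω : LinearMap.BilinForm ℚ_[ℓ] (ℚ_[ℓ] ⊗[ℚ] V)) (C : ∀ m : ℕ, Submodule ℚ (RatForm V m))
    (hX : IsVariety H Q ρ ω C) (b : ℕ) (hb : finrank ℚ V = b)
    -- an abelian variety `A`
    {W T Γ' : Type} [AddCommGroup W] [Module ℚ W] [AddCommGroup T] [Module ℂ T]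
    [Group Γ'] [FiniteDimensional ℚ W] [TopologicalSpace Γ'] [IsTopologicalGroup Γ']
    [CompactSpace Γ'] (g : ℕ) (per : W →+ T) (ω₀ : LinearMap.BilinForm ℚ W)
    (ρ' : Representation ℚ_[ℓ] Γ' (ℚ_[ℓ] ⊗[ℚ] W)) (χ : Γ' →* ℚ_[ℓ])
    (ω' : LinearMap.BilinForm ℚ_[ℓ] (ℚ_[ℓ] ⊗[ℚ] W)) (C' : ∀ m : ℕ, Submodule ℚ (RatForm W m))
    (hA : IsAbelian g per ω₀ ρ' χ ω' C') :
    (∀ (e : V) (D : Submodule ℚ V), AreCycles Q ρ C e D → ∀ c m : ℕ, Most ρ 1 C c m →
      256 * c * b ^ 3 * (Nat.log 2 (4 * b * c) + 1) ≤ m → TateConjecture ρ D) ∧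
    (∀ r c m : ℕ, 1 ≤ r → Most ρ 1 C c m →
      256 * c * b ^ 3 * r ^ 2 * (Nat.log 2 (4 * b * c * r) + 1) ≤ m →
      ∀ m' ≤ r, TateIn ρ 1 C m') ∧
    (∀ c m : ℕ, Most ρ 1 C c m → 256 * c * b ^ 5 * (Nat.log 2 (4 * b ^ 2 * c) + 1) ≤ m →
      Determinants ρ → IsSemisimple ρ) ∧
    (∀ r c m : ℕ, 1 ≤ r → Most ρ' χ C' c m →
      256 * c * g ^ 3 * r ^ 2 * (Nat.log 2 (4 * g * c * r) + 1) ≤ m →
      ∀ m' ≤ r, TateIn ρ' χ C' m') ∧
    (∀ c m : ℕ, 1 ≤ c → 1024 * c * g ^ 3 * (Nat.log 2 (8 * g * c) + 1) ≤ m →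
      ((2 * g) ^ (8 * g + 13) ≤ m ∨ NoTypeFour per ω₀) →
      List.TFAE [∀ m' : ℕ, TateIn ρ' χ C' m', TateIn ρ' χ C' m, Most ρ' χ C' c m]) := by
  obtain ⟨h1, h2, h3⟩ := varieties hX b hb
  obtain ⟨h4, h5⟩ := abelian hA
  exact ⟨h1, h2, h3, h4, h5⟩

end theorems

end Pool.Agent.Results.MP_640417_ag.HalfOfTheTateClasses
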