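import Pool.Agent.X299.Tate.Bridge

/-!
# MP_640417_ag: the index law for Tate classes

Let `X` be a smooth projective variety over the algebraic closure of a finitely generated field.
The ratio of the dimension of the space of all Tate classes on `X^n` and of the rank of the group
of cycles on `X^n` modulo numerical equivalence converges to a positive integer or to infinity.
The limit is one if and only if the Tate conjecture holds for all powers of `X` and homological
and numerical equivalence agree on them. If it is an integer `N`, then homological and numerical
equivalence agree on all powers, the pairing on the Tate classes on all powers is perfect, and all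
Tate classes on all powers are generated, by means of algebraic correspondences, by algebraic
classes and at most `N - 1` further Tate classes.
-/

set_option autoImplicit false

open CategoryTheory AlgebraicGeometry Filter Topology

open scoped ENNReal

universe u v w

namespace Pool.Agent.Results.MP_640417_ag.IndexLaw

open Pool.Agent.H914 Pool.Agent.H914.VarClass Pool.Agent.H281R3.HT Pool.Agent.Y129
  Pool.Agent.X299

theorem result {k : Type u} [Field k] {𝒱 : VarClass k} {ops : CycleOps 𝒱}
    (W : WeilCohomology.{u, v} ops) (X : 𝒱.Obj) [Nontrivial (W.H X)]
    {Γ : Type w} [Group Γ] (R : PowAct W X Γ) :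
    ∃ N : ℕ∞, 1 ≤ N ∧ Tendsto R.ratio atTop (𝓝 (N : ℝ≥0∞)) ∧
      (∀ n, R.ratio (2 * n + 1) ≤ (N : ℝ≥0∞)) ∧
      (N = 1 ↔ R.TateConjecture ∧ ∀ n, HomEqNum W (pw X n)) ∧
      (N ≠ ⊤ → (∀ n, HomEqNum W (pw X n)) ∧ R.Perfect ∧ R.GeneratedBelow N) :=
  R.index

end Pool.Agent.Results.MP_640417_ag.IndexLaw
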