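import Pool.Agent.X311.Tc1

/-!
# Tate classes on the abelian varieties with simple factors of dimension at most three

Let `X` be an abelian variety, of any dimension, over the algebraic closure `k` (in the field of
complex numbers) of a field finitely generated over `ℚ`, all of whose simple abelian subvarieties have
dimension at most three, those with complex multiplication being elliptic curves: so, up to isogeny,
`X` is **any product of powers of elliptic curves and of simple abelian surfaces and threefolds
without complex multiplication**. Let `ℓ` be a prime number. `H = H_1(X, ℚ)` is the rational homology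
and `ℚ_ℓ ⊗ H` is the rational Tate module, so that `H^j(X, ℚ_ℓ)` is the space of the alternating
forms in `j` variables on it.

The theorem. (1) A class in `H^j(X, ℚ_ℓ)` is invariant under the Lie algebra of the Hodge group of `X`
if and only if it is a linear combination, with coefficients in `ℚ_ℓ`, of classes in the ring
generated by the classes of divisors and by the pull-backs, along homomorphisms `X → Y`, of the Weil
classes of imaginary quadratic fields on abelian varieties `Y` of dimension four, and of dimension
six with trivial discriminant. (2) If the Mumford-Tate conjecture holds for `X` (all Tate classes in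
the tensor powers of the first cohomology group are combinations of Hodge classes) then **all Tate
classes** in `H^{2i}(X, ℚ_ℓ)(i)`, for all `i`, are such linear combinations.

The Mumford-Tate conjecture is known for these abelian varieties: for elliptic curves (Serre), for
simple abelian varieties of prime dimension (Ribet, Serre, Tankeev, Chi), and for products of abelian
varieties for which it is known (Lombardo, Commelin). The Weil classes in the theorem are algebraic
by a theorem of Markman, over the complex numbers and then over `k`. So **the Tate conjecture holds
for all these abelian varieties `X`, in all codimensions**. It was known for products of elliptic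
curves, and if there are no exotic classes.

The proof. The components of an invariant class with respect to a basis of `ℚ_ℓ` over `ℚ` are killed
by the Lie algebra of the Hodge group, and this Lie algebra, with real coefficients, contains the
complex structure of the tangent space; so they are Hodge classes. The Hodge classes of `X` are
determined by the theorem `MP_e12fcd_ag.SmallSimpleFactors`.
-/

set_option autoImplicit false

namespace Pool.Agent.Results.MP_640417_ag.SmallSimpleFactors

open TensorProduct Pool.Agent.X311.Tc Pool.Agent.Y90.St

/-- **Tate classes on the abelian varieties with simple factors of dimension at most three.** -/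
theorem result {H T : Type} [AddCommGroup H] [Module ℚ H] [AddCommGroup T] [Module ℂ T]
    (per : H →+ T) (hX : IsAV per) (hs : SmallSimple per) (ℓ : ℕ) [Fact ℓ.Prime] :
    (∀ (κ : Type) [Fintype κ] [DecidableEq κ] (t : (ℚ_[ℓ] ⊗[ℚ] H) [⋀^κ]→ₗ[ℚ_[ℓ]] ℚ_[ℓ]),
      IsInvariant per t ↔ IsWeilCombination per t) ∧
    ∀ (Γ : Type) [Group Γ] (ρ : Representation ℚ_[ℓ] Γ (ℚ_[ℓ] ⊗[ℚ] H)) (χ : Γ →* ℚ_[ℓ]),
      MumfordTate per ρ χ →
        ∀ (i : ℕ) (t : (ℚ_[ℓ] ⊗[ℚ] H) [⋀^(Fin i × Fin 2)]→ₗ[ℚ_[ℓ]] ℚ_[ℓ]),
          IsTateClass ρ χ i t → IsWeilCombination per t :=
  ⟨fun _ _ _ t => invariant_iff hX hs t, fun _ _ ρ χ hMT i t ht => tate hX hs ρ χ hMT i t ht⟩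

end Pool.Agent.Results.MP_640417_ag.SmallSimpleFactors
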